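import Pool.Agent.V11320.PP.B

set_option autoImplicit false

/-! The key inequality. -/

namespace Pool.Agent.V11320.PP

open Finset Filter Topology

/-- the inequality between the products -/
theorem key (Q : Finset ℕ) (hQp : ∀ q ∈ Q, q.Prime) (hQ : Best Q) :
    ∃ X : ℕ, ∀ x : ℕ, X ≤ x →
      (∀ p : ℕ, p.Prime → x < p → x + 2 * (∏ q ∈ Q, q) < p) →
      ∀ T U : Finset ℕ, (∀ t ∈ T, t.Prime ∧ t ≤ x) → (∀ u ∈ U, u.Prime ∧ x < u) →
      ∑ t ∈ T, t = ∑ u ∈ U, u + ∑ q ∈ Q, q →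
      (∏ q ∈ Q, q) * ∏ u ∈ U, u ≤ ∏ t ∈ T, t := by
  classical
  set B := ∏ q ∈ Q, q with hB
  set a := ∑ q ∈ Q, q with ha
  have hB1 : 1 ≤ B := Nat.one_le_iff_ne_zero.2 (prod_ne_zero_iff.2 fun q hq => (hQp q hq).ne_zero)
  have hBr : (1 : ℝ) ≤ B := by exact_mod_cast hB1
  -- the conditions on `x`
  have ev : ∀ᶠ x : ℕ in atTop, Real.log x * (2 * (2 * B) * (2 * B) + 1) ≤ (1 / 2 : ℝ) * x ∧
      Real.log B + Real.log (2 * Real.log x) ≤ Real.log x / 2 ∧ 2 * Real.log B + 4 ≤ Real.log x ∧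
      2 * a + 10 ≤ x := by
    have h1 : ∀ᶠ x : ℕ in atTop, Real.log x * (2 * (2 * B) * (2 * B) + 1) ≤ (1 / 2 : ℝ) * x := by
      have hpos : (0 : ℝ) < 1 / (2 * (2 * (2 * B) * (2 * B) + 1)) := by positivity
      have h := (Real.isLittleO_log_id_atTop).def (c := 1 / (2 * (2 * (2 * B) * (2 * B) + 1))) hpos
      have h2 := tendsto_natCast_atTop_atTop (R := ℝ) |>.eventually h
      filter_upwards [h2, eventually_ge_atTop 1] with x hx hx1
      have hlog : 0 ≤ Real.log x := Real.log_natCast_nonneg x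
      simp only [id, Real.norm_eq_abs] at hx
      rw [abs_of_nonneg hlog, abs_of_nonneg (Nat.cast_nonneg x)] at hx
      have h3 := mul_le_mul_of_nonneg_right hx (by positivity : (0 : ℝ) ≤ 2 * (2 * B) * (2 * B) + 1)
      have e : 1 / (2 * (2 * (2 * (B : ℝ)) * (2 * B) + 1)) * x * (2 * (2 * B) * (2 * B) + 1) = 1 / 2 * x := by
        field_simp
      linarith
    have hlogt : Tendsto (fun x : ℕ => Real.log x) atTop atTop :=
      Real.tendsto_log_atTop.comp (tendsto_natCast_atTop_atTop (R := ℝ))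
    have h2 : ∀ᶠ x : ℕ in atTop, Real.log B + Real.log (2 * Real.log x) ≤ Real.log x / 2 := by
      have h := (Real.isLittleO_log_id_atTop).def (c := 1 / 8) (by norm_num)
      have h2 := hlogt.eventually h
      filter_upwards [h2, hlogt.eventually_ge_atTop (8 * Real.log B + 8)] with x hx hx1
      have hlogB : 0 ≤ Real.log B := Real.log_nonneg hBr
      have hpos : 0 < Real.log x := by linarith
      simp only [id, Real.norm_eq_abs] at hx
      rw [abs_of_pos hpos] at hx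
      rw [Real.log_mul (by norm_num) hpos.ne']
      have h3 := le_abs_self (Real.log (Real.log x))
      have := Real.log_two_lt_d9
      linarith
    filter_upwards [h1, h2, hlogt.eventually_ge_atTop (2 * Real.log B + 4), eventually_ge_atTop (2 * a + 10)]
      with x c1 c2 c3 c4
    exact ⟨c1, c2, c3, c4⟩
  obtain ⟨X, hX⟩ := eventually_atTop.1 ev
  refine ⟨X, fun x hx hgap T U hT hU hsum => ?_⟩
  obtain ⟨c1, c2, c3, c4⟩ := hX x hx
  have hxpos : (0 : ℝ) < x := by
    have : 0 < x := by omega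
    exact_mod_cast this
  set L := Real.log x with hL
  have hlogB : 0 ≤ Real.log B := Real.log_nonneg hBr
  have hL4 : 4 ≤ L := by linarith
  have hlog2 := Real.log_two_gt_d9
  -- trivial case
  by_cases hU0 : U = ∅
  · subst hU0
    rw [prod_empty, mul_one]
    rw [sum_empty, zero_add] at hsum
    exact hQ T (fun t ht => (hT t ht).1) hsum
  have hUne : 1 ≤ U.card := Nat.one_le_iff_ne_zero.2 (card_ne_zero.2 (nonempty_iff_ne_empty.2 hU0))
  have hTpos : ∀ t ∈ T, (0 : ℝ) < t := fun t ht => by exact_mod_cast (hT t ht).1.pos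
  have hUpos : ∀ u ∈ U, (0 : ℝ) < u := fun u hu => by exact_mod_cast (hU u hu).1.pos
  -- pass to logarithms
  suffices hlog : Real.log B + ∑ u ∈ U, Real.log u ≤ ∑ t ∈ T, Real.log t by
    have h1 : Real.log ((B : ℝ) * ∏ u ∈ U, (u : ℝ)) ≤ Real.log (∏ t ∈ T, (t : ℝ)) := by
      rw [Real.log_mul (by positivity) (prod_ne_zero_iff.2 fun u hu => (hUpos u hu).ne'),
        Real.log_prod (fun u hu => (hUpos u hu).ne'), Real.log_prod (fun t ht => (hTpos t ht).ne')]
      exact hlog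
    have h2 : (B : ℝ) * ∏ u ∈ U, (u : ℝ) ≤ ∏ t ∈ T, (t : ℝ) :=
      (Real.log_le_log_iff (mul_pos (by linarith) (prod_pos hUpos)) (prod_pos hTpos)).1 h1
    have h3 : ((B * ∏ u ∈ U, u : ℕ) : ℝ) ≤ ((∏ t ∈ T, t : ℕ) : ℝ) := by
      rw [Nat.cast_mul, Nat.cast_prod (fun u : ℕ => u) U, Nat.cast_prod (fun t : ℕ => t) T]
      exact h2
    exact Nat.cast_le.1 h3
  -- the gains
  set g : ℕ → ℝ := fun t => Real.log t - L * t / x with hg
  set k : ℕ → ℝ := fun u => L * u / x - Real.log u with hk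
  have hkey : ∑ t ∈ T, Real.log t - ∑ u ∈ U, Real.log u = ∑ t ∈ T, g t + ∑ u ∈ U, k u + L * a / x := by
    have h1 : ((∑ t ∈ T, t : ℕ) : ℝ) = ((∑ u ∈ U, u + a : ℕ) : ℝ) := by rw [hsum]
    push_cast at h1
    simp only [hg, hk, sum_sub_distrib]
    have h2 : ∀ S : Finset ℕ, ∑ t ∈ S, L * (t : ℝ) / x = L / x * ∑ t ∈ S, (t : ℝ) := by
      intro S
      rw [mul_sum]
      exact sum_congr rfl fun t _ => by ring
    rw [h2, h2, h1]
    ring
  have hLa : 0 ≤ L * a / x := by positivity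
  -- small elements
  have gsmall : ∀ t ∈ T, t ≤ 2 * B → 0 ≤ g t := by
    intro t ht htB
    have h1 : Real.log 2 ≤ Real.log t := Real.log_le_log (by norm_num) (by exact_mod_cast (hT t ht).1.two_le)
    have h2 : L * t / x ≤ 1 / 2 := by
      rw [div_le_iff₀ hxpos]
      have h3 : (t : ℝ) ≤ 2 * B := by exact_mod_cast htB
      have h4 : (t : ℝ) ≤ 2 * (2 * B) * (2 * B) + 1 := by nlinarith
      have h5 := mul_le_mul_of_nonneg_left h4 (by linarith : 0 ≤ L)
      linarith
    simp only [hg]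
    linarith
  have gmid : ∀ t ∈ T, 2 * B < t → 2 * t < x → Real.log B ≤ g t := by
    intro t ht htB htx
    simp only [hg]
    have htr : (2 : ℝ) * B ≤ t := by exact_mod_cast htB.le
    have htp := hTpos t ht
    by_cases hc : (t : ℝ) ≤ x / (2 * L)
    · have h1 : L * t / x ≤ 1 / 2 := by
        rw [div_le_iff₀ hxpos]
        rw [le_div_iff₀ (by linarith)] at hc
        linarith
      have h2 : Real.log (2 * B) ≤ Real.log t := Real.log_le_log (by linarith) htr
      rw [Real.log_mul (by norm_num) (by linarith)] at h2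
      linarith
    · push Not at hc
      have h1 : Real.log (x / (2 * L)) ≤ Real.log t := Real.log_le_log (by positivity) hc.le
      rw [Real.log_div hxpos.ne' (by positivity)] at h1
      have h2 : L * t / x ≤ L / 2 := by
        rw [div_le_iff₀ hxpos]
        have h3 : (2 : ℝ) * t ≤ x := by exact_mod_cast htx.le
        nlinarith
      linarith
  have glarge : ∀ t ∈ T, x ≤ 2 * t → (L - 2) / x * (x - t) ≤ g t := by
    intro t ht htx
    simp only [hg]
    have htp := hTpos t ht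
    have h3 : (x : ℝ) ≤ 2 * t := by exact_mod_cast htx
    have h4 : (t : ℝ) ≤ x := by exact_mod_cast (hT t ht).2
    have h1 : Real.log (x / t) ≤ x / t - 1 := Real.log_le_sub_one_of_pos (by positivity)
    rw [Real.log_div hxpos.ne' htp.ne'] at h1
    have h2 : (x : ℝ) / t - 1 ≤ 2 * (x - t) / x := by
      rw [div_sub_one htp.ne', div_le_div_iff₀ htp hxpos]
      nlinarith
    have e : (L - 2) / x * (x - t) = L - L * t / x - 2 * (x - t) / x := by
      field_simp
    rw [e]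
    linarith
  have klarge : ∀ u ∈ U, (L - 2) / x * (u - x) ≤ k u := by
    intro u hu
    simp only [hk]
    have hup := hUpos u hu
    have h4 : (x : ℝ) ≤ u := by exact_mod_cast (hU u hu).2.le
    have h1 : Real.log (u / x) ≤ u / x - 1 := Real.log_le_sub_one_of_pos (by positivity)
    rw [Real.log_div hup.ne' hxpos.ne'] at h1
    have e : (L - 2) / x * (u - x) = (L * u / x - L - (u / x - 1)) - (u / x - 1) := by
      field_simp
      ring
    have h5 : 0 ≤ (u : ℝ) / x - 1 := by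
      rw [sub_nonneg, one_le_div hxpos]
      exact h4
    rw [e]
    linarith
  have gnn : ∀ t ∈ T, 0 ≤ g t := by
    intro t ht
    by_cases h1 : t ≤ 2 * B
    · exact gsmall t ht h1
    · by_cases h2 : 2 * t < x
      · exact hlogB.trans (gmid t ht (by omega) h2)
      · refine le_trans ?_ (glarge t ht (by omega))
        have h4 : (t : ℝ) ≤ x := by exact_mod_cast (hT t ht).2
        exact mul_nonneg (div_nonneg (by linarith) hxpos.le) (by linarith)
  have knn : ∀ u ∈ U, 0 ≤ k u := by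
    intro u hu
    refine le_trans ?_ (klarge u hu)
    have h4 : (x : ℝ) ≤ u := by exact_mod_cast (hU u hu).2.le
    exact mul_nonneg (div_nonneg (by linarith) hxpos.le) (by linarith)
  have hksum : 0 ≤ ∑ u ∈ U, k u := sum_nonneg knn
  suffices hgain : Real.log B ≤ ∑ t ∈ T, g t + ∑ u ∈ U, k u + L * a / x by linarith
  -- case of a middle element
  by_cases hmid : ∃ t ∈ T, 2 * B < t ∧ 2 * t < x
  · obtain ⟨t, ht, h1, h2⟩ := hmid
    have h3 : g t ≤ ∑ t ∈ T, g t := single_le_sum gnn ht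
    have h4 := gmid t ht h1 h2
    linarith
  push Not at hmid
  set Ts := T.filter (fun t => t ≤ 2 * B) with hTs
  set Tl := T.filter (fun t => ¬ t ≤ 2 * B) with hTl
  have hsplit : ∑ t ∈ T, g t = ∑ t ∈ Ts, g t + ∑ t ∈ Tl, g t := (sum_filter_add_sum_filter_not _ _ _).symm
  have hsplitN : ∑ t ∈ T, t = ∑ t ∈ Ts, t + ∑ t ∈ Tl, t := (sum_filter_add_sum_filter_not _ _ _).symm
  have hTsT : Ts ⊆ T := filter_subset _ _
  have hTlT : Tl ⊆ T := filter_subset _ _
  have hTlx : ∀ t ∈ Tl, x ≤ 2 * t := fun t ht => by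
    have := mem_filter.1 ht
    exact hmid t this.1 (by omega)
  have hTs0 : 0 ≤ ∑ t ∈ Ts, g t := sum_nonneg fun t ht => gnn t (hTsT ht)
  have hTl0 : 0 ≤ ∑ t ∈ Tl, g t := sum_nonneg fun t ht => gnn t (hTlT ht)
  by_cases hP : 2 * B ≤ ∏ t ∈ Ts, t
  · -- the small elements already have a large product
    have h1 : ∑ t ∈ Ts, g t = Real.log (∏ t ∈ Ts, (t : ℝ)) - L / x * ∑ t ∈ Ts, (t : ℝ) := by
      rw [Real.log_prod (fun t ht => (hTpos t (hTsT ht)).ne'), mul_sum, ← sum_sub_distrib]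
      exact sum_congr rfl fun t _ => by simp only [hg]; ring
    have h2 : Real.log (2 * B) ≤ Real.log (∏ t ∈ Ts, (t : ℝ)) := by
      apply Real.log_le_log (by linarith)
      have h3 : ((2 * B : ℕ) : ℝ) ≤ ((∏ t ∈ Ts, t : ℕ) : ℝ) := Nat.cast_le.2 hP
      rw [Nat.cast_mul, Nat.cast_prod (fun t : ℕ => t) Ts] at h3
      exact h3
    rw [Real.log_mul (by norm_num) (by linarith)] at h2
    have h3 : ∑ t ∈ Ts, (t : ℝ) ≤ 2 * (2 * B) * (2 * B) + 1 := by
      have h4 : Ts ⊆ range (2 * B + 1) := by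
        intro t ht
        have := (mem_filter.1 ht).2
        rw [mem_range]
        omega
      have h5 : ∑ t ∈ Ts, t ≤ (2 * B + 1) * (2 * B) := by
        calc ∑ t ∈ Ts, t ≤ ∑ t ∈ range (2 * B + 1), t := sum_le_sum_of_subset h4
          _ ≤ ∑ t ∈ range (2 * B + 1), 2 * B := sum_le_sum fun t ht => by
              have := mem_range.1 ht; omega
          _ = _ := by rw [sum_const, card_range, smul_eq_mul]
      have h6 : ∑ t ∈ Ts, t ≤ 2 * (2 * B) * (2 * B) + 1 := by nlinarith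
      have h7 : ((∑ t ∈ Ts, t : ℕ) : ℝ) ≤ ((2 * (2 * B) * (2 * B) + 1 : ℕ) : ℝ) := Nat.cast_le.2 h6
      rw [Nat.cast_sum] at h7
      refine h7.trans (le_of_eq ?_)
      push_cast
      ring
    have h4 : L / x * ∑ t ∈ Ts, (t : ℝ) ≤ 1 / 2 := by
      calc L / x * ∑ t ∈ Ts, (t : ℝ) ≤ L / x * (2 * (2 * B) * (2 * B) + 1) :=
            mul_le_mul_of_nonneg_left h3 (by positivity)
        _ = (L * (2 * (2 * B) * (2 * B) + 1)) / x := by ring
        _ ≤ 1 / 2 := by
            rw [div_le_iff₀ hxpos]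
            exact c1
    linarith
  · push Not at hP
    have hTs2 : ∀ t ∈ Ts, 2 ≤ t := fun t ht => (hT t (hTsT ht)).1.two_le
    have hTss : ∑ t ∈ Ts, t < 2 * B := lt_of_le_of_lt (sum_le_prod' Ts hTs2) hP
    by_cases hcard : Tl.card ≤ U.card
    · -- contradiction with the gap
      exfalso
      have h1 : ∑ t ∈ Tl, t ≤ Tl.card * x := by
        calc ∑ t ∈ Tl, t ≤ ∑ t ∈ Tl, x := sum_le_sum fun t ht => (hT t (hTlT ht)).2
          _ = _ := by rw [sum_const, smul_eq_mul]
      have h2 : U.card * (x + 2 * B) ≤ ∑ u ∈ U, u := by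
        calc U.card * (x + 2 * B) = ∑ u ∈ U, (x + 2 * B) := by rw [sum_const, smul_eq_mul]
          _ ≤ ∑ u ∈ U, u := sum_le_sum fun u hu => (hgap u (hU u hu).1 (hU u hu).2).le
      have h3 : Tl.card * x ≤ U.card * x := Nat.mul_le_mul_right _ hcard
      have h4 : 2 * B ≤ U.card * (2 * B) := Nat.le_mul_of_pos_left _ hUne
      have h5 : U.card * (x + 2 * B) = U.card * x + U.card * (2 * B) := by ring
      omega
    · push Not at hcard
      have h1 : (L - 2) / x * ∑ t ∈ Tl, ((x : ℝ) - t) ≤ ∑ t ∈ Tl, g t := by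
        rw [mul_sum]
        exact sum_le_sum fun t ht => glarge t (hTlT ht) (hTlx t ht)
      have h2 : (L - 2) / x * ∑ u ∈ U, ((u : ℝ) - x) ≤ ∑ u ∈ U, k u := by
        rw [mul_sum]
        exact sum_le_sum fun u hu => klarge u hu
      have h3 : ∑ t ∈ Tl, ((x : ℝ) - t) = Tl.card * x - ∑ t ∈ Tl, (t : ℝ) := by
        rw [sum_sub_distrib, sum_const, nsmul_eq_mul]
      have h4 : ∑ u ∈ U, ((u : ℝ) - x) = ∑ u ∈ U, (u : ℝ) - U.card * x := by
        rw [sum_sub_distrib, sum_const, nsmul_eq_mul]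
      have h5 : ∑ t ∈ Ts, (t : ℝ) + ∑ t ∈ Tl, (t : ℝ) = ∑ u ∈ U, (u : ℝ) + a := by
        have : ∑ t ∈ Ts, t + ∑ t ∈ Tl, t = ∑ u ∈ U, u + a := by rw [← hsplitN, hsum]
        have h6 : ((∑ t ∈ Ts, t + ∑ t ∈ Tl, t : ℕ) : ℝ) = ((∑ u ∈ U, u + a : ℕ) : ℝ) := congrArg _ this
        rw [Nat.cast_add, Nat.cast_add, Nat.cast_sum, Nat.cast_sum, Nat.cast_sum] at h6
        exact h6
      have h6 : (0 : ℝ) ≤ ∑ t ∈ Ts, (t : ℝ) := sum_nonneg fun t _ => Nat.cast_nonneg t
      have h7 : (U.card : ℝ) + 1 ≤ Tl.card := by exact_mod_cast hcard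
      have h8 : (2 : ℝ) * a + 10 ≤ x := by exact_mod_cast c4
      have h9 : (x : ℝ) / 2 ≤ ∑ t ∈ Tl, ((x : ℝ) - t) + ∑ u ∈ U, ((u : ℝ) - x) := by
        rw [h3, h4]
        have : ((U.card : ℝ) + 1) * x ≤ Tl.card * x := mul_le_mul_of_nonneg_right h7 hxpos.le
        linarith
      have h10 : (L - 2) / x * ((x : ℝ) / 2) ≤
          (L - 2) / x * (∑ t ∈ Tl, ((x : ℝ) - t) + ∑ u ∈ U, ((u : ℝ) - x)) :=
        mul_le_mul_of_nonneg_left h9 (div_nonneg (by linarith) hxpos.le)
      have h11 : (L - 2) / x * ((x : ℝ) / 2) = (L - 2) / 2 := by field_simp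
      rw [mul_add] at h10
      linarith

end Pool.Agent.V11320.PP
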