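import Pool.Agent.W93.GB4

set_option autoImplicit false

/-! Every large odd number is a sum of three distinct primes. -/

namespace Pool.Agent.V11320.PP

open Finset Filter Topology Pool.Agent.H560R3.GB Pool.Agent.W93.GB

lemma ev1 : ∀ᶠ k : ℕ in atTop, 8 * Real.log k ^ 2 ≤ (k : ℝ) := by
  have h := (Real.isLittleO_pow_log_id_atTop (n := 2)).def (c := 1 / 8) (by norm_num)
  have h2 := tendsto_natCast_atTop_atTop (R := ℝ) |>.eventually h
  filter_upwards [h2] with k hk
  simp only [id, Real.norm_eq_abs] at hk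
  rw [abs_of_nonneg (sq_nonneg _), abs_of_nonneg (Nat.cast_nonneg k)] at hk
  linarith

lemma ev2 : ∀ᶠ k : ℕ in atTop, 16 ≤ Real.log k := by
  have h := Real.tendsto_log_atTop.comp (tendsto_natCast_atTop_atTop (R := ℝ))
  exact h.eventually_ge_atTop 16

lemma good_rep (k p : ℕ) (hk : 2 ≤ k) (hk8 : 8 * Real.log k ^ 2 ≤ (k : ℝ)) (hg : Good (1 / 2) k) :
    ∃ q r : ℕ, q.Prime ∧ r.Prime ∧ p ≠ q ∧ p ≠ r ∧ q ≠ r ∧ q + r = k := by
  obtain ⟨h1, -⟩ := hg
  have hk1 : (1 : ℝ) < k := by exact_mod_cast (by omega : 1 < k)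
  have hlog : 0 < Real.log k := Real.log_pos hk1
  have h2 : (8 : ℝ) ≤ HL k := by
    unfold HL
    have h3 := one_le_sing k
    have h4 : (8 : ℝ) ≤ k / Real.log k ^ 2 := by
      rw [le_div_iff₀ (by positivity)]
      exact hk8
    nlinarith
  have h3 : (4 : ℝ) ≤ g k := by
    have := (abs_le.1 h1).1
    linarith
  have h4 : 4 ≤ g k := by exact_mod_cast h3
  by_contra hcon
  push Not at hcon
  have h5 : (antidiagonal k).filter (fun q : ℕ × ℕ => q.1.Prime ∧ q.2.Prime) ⊆
      {(k / 2, k / 2), (p, k - p), (k - p, p)} := by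
    rintro ⟨a, b⟩ hab
    rw [mem_filter, HasAntidiagonal.mem_antidiagonal] at hab
    obtain ⟨hab1, ha, hb⟩ := hab
    simp only at hab1 ha hb
    simp only [mem_insert, mem_singleton, Prod.mk.injEq]
    by_cases e1 : p = a
    · right; left; omega
    by_cases e2 : p = b
    · right; right; omega
    by_cases e3 : a = b
    · left; omega
    exact absurd hab1 (hcon a b ha hb e1 e2 e3)
  have h6 := card_le_card h5
  have h7 : ({(k / 2, k / 2), (p, k - p), (k - p, p)} : Finset (ℕ × ℕ)).card ≤ 3 := card_le_three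
  unfold g at h4
  omega

lemma ev3 : ∀ᶠ k : ℕ in atTop, (2 * k + 1 : ℝ) / Real.log (2 * k + 1) ^ 2 + 1 <
    (k * Real.log 2 - Real.log (k + 1)) / Real.log k := by
  filter_upwards [ev1, ev2, eventually_ge_atTop 100] with k h1 h2 h3
  have hk : (100 : ℝ) ≤ k := by exact_mod_cast h3
  have hL : 0 < Real.log k := by linarith
  have e1 : Real.log k ≤ Real.log (2 * k + 1) := Real.log_le_log (by linarith) (by linarith)
  have e2 : Real.log (k + 1) ≤ Real.log k + 1 := by
    have : Real.log (k + 1) ≤ Real.log (k * 2) := Real.log_le_log (by linarith) (by linarith)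
    rw [Real.log_mul (by linarith) (by norm_num)] at this
    have := Real.log_two_lt_d9
    linarith
  have e3 : (2 * k + 1 : ℝ) / Real.log (2 * k + 1) ^ 2 ≤ (3 * k) / Real.log k ^ 2 := by
    apply div_le_div₀ (by linarith) (by linarith) (by positivity)
    exact pow_le_pow_left₀ hL.le e1 2
  have e4 : (1 : ℝ) ≤ k / Real.log k ^ 2 := by
    rw [le_div_iff₀ (by positivity)]
    nlinarith [sq_nonneg (Real.log k)]
  have e5 : (3 * k : ℝ) / Real.log k ^ 2 + 1 ≤ 4 * (k / Real.log k ^ 2) := by
    have : (3 * k : ℝ) / Real.log k ^ 2 = 3 * (k / Real.log k ^ 2) := by ring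
    linarith
  have e6 : 4 * ((k : ℝ) / Real.log k ^ 2) ≤ (k / 4) / Real.log k := by
    rw [← mul_div_assoc, div_le_div_iff₀ (by positivity) hL]
    nlinarith [mul_pos (by linarith : (0 : ℝ) < k) hL]
  have e7 : ((k : ℝ) / 4) / Real.log k < (k * Real.log 2 - Real.log (k + 1)) / Real.log k := by
    apply div_lt_div_of_pos_right _ hL
    have := Real.log_two_gt_d9
    have e8 : Real.log k + 1 ≤ k / 8 := by
      have : Real.log k * 16 ≤ Real.log k ^ 2 := by nlinarith
      linarith
    nlinarith
  linarith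

/-- every large odd number is a sum of three distinct primes -/
theorem three : ∃ n₀ : ℕ, ∀ n : ℕ, n₀ ≤ n → n % 2 = 1 →
    ∃ p q r : ℕ, p.Prime ∧ q.Prime ∧ r.Prime ∧ p ≠ q ∧ p ≠ r ∧ q ≠ r ∧ p + (q + r) = n := by
  classical
  obtain ⟨N₀, hN⟩ := fam 1 2 0 2 le_rfl (1 / 2) (by norm_num)
  obtain ⟨K₁, hK₁⟩ := eventually_atTop.1 ev1
  obtain ⟨K₃, hK₃⟩ := eventually_atTop.1 ev3
  refine ⟨max N₀ (max (2 * K₁ + 2) (max (2 * K₃ + 2) 100)), fun n hn hodd => ?_⟩
  have hn1 : N₀ ≤ n := by omega
  have hn2 : 2 * K₁ + 2 ≤ n := by omega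
  have hn3 : 2 * K₃ + 2 ≤ n := by omega
  have hn4 : 100 ≤ n := by omega
  by_contra hcon
  push Not at hcon
  set P := (Icc 3 (n / 2)).filter Nat.Prime with hP
  set S := P.image (fun p => (n - p) / 2) with hS
  have hPodd : ∀ p ∈ P, p % 2 = 1 := by
    intro p hp
    rw [hP, mem_filter, mem_Icc] at hp
    rcases hp.2.eq_two_or_odd with h | h
    · omega
    · exact h
  have hSx : S ⊆ Icc 1 n := by
    intro m hm
    rw [hS, mem_image] at hm
    obtain ⟨p, hp, rfl⟩ := hm
    rw [hP, mem_filter, mem_Icc] at hp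
    rw [mem_Icc]
    omega
  have hbad : ∀ m ∈ S, ¬ Good (1 / 2) (2 * m) := by
    intro m hm hg
    rw [hS, mem_image] at hm
    obtain ⟨p, hp, rfl⟩ := hm
    have ho := hPodd p hp
    rw [hP, mem_filter, mem_Icc] at hp
    have e : 2 * ((n - p) / 2) = n - p := by omega
    rw [e] at hg
    obtain ⟨q, r, hq, hr, e1, e2, e3, e4⟩ := good_rep (n - p) p (by omega) (hK₁ (n - p) (by omega)) hg
    exact hcon p q r hp.2 hq hr e1 e2 e3 (by omega)
  have hen : energy 1 n (fun m => 2 * m) ≤ n := by
    unfold energy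
    calc _ ≤ ((Fintype.piFinset fun _ : Fin 1 => Icc 1 n)).card := by
          apply card_le_card_of_injOn (fun q => q.1)
          · intro q hq
            have := (mem_filter.1 (mem_coe.1 hq)).1
            exact (mem_product.1 this).1
          · intro q hq q' hq' h
            have h1 := (mem_filter.1 (mem_coe.1 hq)).2
            have h2 := (mem_filter.1 (mem_coe.1 hq')).2
            simp only [Fin.sum_univ_one] at h1 h2
            have h3 : q.1 = q'.1 := h
            have h4 : q.2 = q'.2 := by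
              funext i
              rw [Subsingleton.elim i 0]
              rw [h3] at h1
              omega
            exact Prod.ext h3 h4
      _ = n := by
          rw [Fintype.card_piFinset]
          simp
  have hmain := hN n hn1 n (fun m => 2 * m) (by
      intro m hm
      rw [mem_Icc] at hm
      exact ⟨by omega, ⟨m, rfl⟩⟩) (by
      have : (energy 1 n (fun m => 2 * m) : ℝ) ≤ n := by exact_mod_cast hen
      have hn0 : (0 : ℝ) ≤ n := Nat.cast_nonneg n
      rw [pow_zero, one_mul]
      norm_num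
      nlinarith) S hSx hbad
  have hcard : S.card = P.card := by
    rw [hS]
    apply card_image_of_injOn
    intro p hp p' hp' h
    have o1 := hPodd p hp
    have o2 := hPodd p' hp'
    have hp := mem_Icc.1 (mem_filter.1 (mem_coe.1 hp)).1
    have hp' := mem_Icc.1 (mem_filter.1 (mem_coe.1 hp')).1
    simp only at h
    omega
  have hPcard : Nat.primeCounting (n / 2) ≤ P.card + 1 := by
    have e1 : Nat.primeCounting (n / 2) = ((range (n / 2 + 1)).filter Nat.Prime).card := by
      rw [Nat.primeCounting, Nat.primeCounting', Nat.count_eq_card_filter_range]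
    rw [e1]
    have e2 : (range (n / 2 + 1)).filter Nat.Prime ⊆ insert 2 P := by
      intro p hp
      rw [mem_filter, mem_range] at hp
      rw [mem_insert]
      by_cases h : p = 2
      · exact Or.inl h
      · right
        rw [hP, mem_filter, mem_Icc]
        have := hp.2.two_le
        exact ⟨⟨by omega, by omega⟩, hp.2⟩
    exact (card_le_card e2).trans (card_insert_le _ _)
  have hpi := Chebyshev.pi_ge (n / 2)
  have h3 := hK₃ (n / 2) (by omega)
  have e0 : n = 2 * (n / 2) + 1 := by omega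
  have e1 : (n : ℝ) = 2 * ((n / 2 : ℕ) : ℝ) + 1 := by exact_mod_cast e0
  rw [hcard] at hmain
  rw [← e1] at h3
  have h5 : (Nat.primeCounting (n / 2) : ℝ) ≤ P.card + 1 := by exact_mod_cast hPcard
  linarith

end Pool.Agent.V11320.PP
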