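import Mathlib

set_option autoImplicit false

/-! Isolated primes, and large sets of primes having the smallest product among the sets of primes
with the same sum. -/

namespace Pool.Agent.V11320.PP

open Finset

/-- isolated primes -/
theorem isolated (H N : ℕ) : ∃ q : ℕ, N < q ∧ q.Prime ∧
    ∀ p : ℕ, p.Prime → q < p + H → p < q + H → p = q := by
  obtain ⟨l, hlH, hl⟩ := Nat.exists_infinite_primes (H + 5)
  set M := (H + 2).factorial with hM
  have hM0 : M ≠ 0 := Nat.factorial_ne_zero _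
  have hco : Nat.Coprime M l := by
    rw [Nat.coprime_comm, hl.coprime_iff_not_dvd, hM, hl.dvd_factorial]
    omega
  obtain ⟨k, hk1, hk2⟩ := Nat.chineseRemainder hco 1 2
  have c1 : Nat.Coprime k M := by
    have : Nat.gcd k M = Nat.gcd 1 M := hk1.gcd_eq
    rw [Nat.coprime_iff_gcd_eq_one, this, Nat.gcd_one_left]
  have c2 : Nat.Coprime k l := by
    have : Nat.gcd k l = Nat.gcd 2 l := hk2.gcd_eq
    rw [Nat.coprime_iff_gcd_eq_one, this, ← Nat.coprime_iff_gcd_eq_one]
    rw [Nat.coprime_primes Nat.prime_two hl]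
    omega
  obtain ⟨q, hqN, hq, hqk⟩ := Nat.forall_exists_prime_gt_and_modEq (q := M * l) (a := k)
    (N + 2 * H + l + M + 10) (mul_ne_zero hM0 hl.ne_zero) (Nat.Coprime.mul_right c1 c2)
  refine ⟨q, by omega, hq, fun p hp h1 h2 => ?_⟩
  have hqM : q ≡ 1 [MOD M] := (Nat.ModEq.of_mul_right l hqk).trans hk1
  have hql : q ≡ 2 [MOD l] := (Nat.ModEq.of_mul_left M hqk).trans hk2
  have hdM : ∀ d : ℕ, 1 ≤ d → d ≤ H + 2 → d ∣ M := fun d hd1 hd => Nat.dvd_factorial (by omega) hd
  have hMq : M ∣ q - 1 := (Nat.modEq_iff_dvd' (by omega)).1 hqM.symm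
  have hlq : l ∣ q - 2 := (Nat.modEq_iff_dvd' (by omega)).1 hql.symm
  by_contra hne
  rcases Nat.lt_or_gt_of_ne hne with h | h
  · -- `p = q - j`
    obtain ⟨j, hj⟩ : ∃ j, q = p + j := ⟨q - p, by omega⟩
    have hj1 : 1 ≤ j := by omega
    have hjH : j < H := by omega
    by_cases hj2 : j = 2
    · subst hj2
      have : l ∣ p := by
        have e : q - 2 = p := by omega
        rwa [e] at hlq
      have := (Nat.prime_dvd_prime_iff_eq hl hp).1 this
      omega
    · by_cases hj1' : j = 1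
      · -- `q - 1` is divisible by 2
        subst hj1'
        have h2 : 2 ∣ q - 1 := (hdM 2 (by omega) (by omega)).trans hMq
        have e : q - 1 = p := by omega
        rw [e] at h2
        have := (Nat.prime_dvd_prime_iff_eq Nat.prime_two hp).1 h2
        omega
      · have h3 : (j - 1) ∣ q - 1 := (hdM (j - 1) (by omega) (by omega)).trans hMq
        have e : q - 1 = p + (j - 1) := by omega
        rw [e] at h3
        have h4 : (j - 1) ∣ p := (Nat.dvd_add_left (dvd_refl _)).1 h3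
        rcases (Nat.dvd_prime hp).1 h4 with h5 | h5 <;> omega
  · obtain ⟨j, hj⟩ : ∃ j, p = q + j := ⟨p - q, by omega⟩
    have h3 : (j + 1) ∣ q - 1 := (hdM (j + 1) (by omega) (by omega)).trans hMq
    have h4 : (j + 1) ∣ p := by
      have e : p = (q - 1) + (j + 1) := by omega
      rw [e]
      exact dvd_add h3 (dvd_refl _)
    rcases (Nat.dvd_prime hp).1 h4 with h5 | h5 <;> omega

/-- a set of numbers at least two has sum at most its product, unless it is empty -/
lemma sum_le_prod (S : Finset ℕ) (h : ∀ p ∈ S, 2 ≤ p) (hne : S.Nonempty) : ∑ p ∈ S, p ≤ ∏ p ∈ S, p := by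
  classical
  induction hne using Finset.Nonempty.cons_induction with
  | singleton a => simp
  | cons a s ha hs ih =>
    rw [sum_cons, prod_cons]
    have h1 := ih (fun p hp => h p (mem_cons_of_mem hp))
    have h2 : 2 ≤ a := h a (mem_cons_self a s)
    have h3 : 2 ≤ ∑ p ∈ s, p := by
      obtain ⟨b, hb⟩ := hs
      exact (h b (mem_cons_of_mem hb)).trans (single_le_sum (f := fun p : ℕ => p) (fun _ _ => Nat.zero_le _) hb)
    nlinarith

lemma sum_le_prod' (S : Finset ℕ) (h : ∀ p ∈ S, 2 ≤ p) : ∑ p ∈ S, p ≤ ∏ p ∈ S, p := by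
  rcases S.eq_empty_or_nonempty with h0 | h0
  · subst h0; simp
  · exact sum_le_prod S h h0

/-- `Q` has the smallest product among the sets of primes with the same sum -/
def Best (Q : Finset ℕ) : Prop :=
  ∀ R : Finset ℕ, (∀ r ∈ R, r.Prime) → ∑ r ∈ R, r = ∑ q ∈ Q, q → ∏ q ∈ Q, q ≤ ∏ r ∈ R, r

theorem best_step (Q : Finset ℕ) (hQp : ∀ q ∈ Q, q.Prime) (hQ : Best Q) (N : ℕ) :
    ∃ q : ℕ, N < q ∧ q.Prime ∧ q ∉ Q ∧ Best (insert q Q) := by
  classical
  set B := ∏ q ∈ Q, q with hB
  set a := ∑ q ∈ Q, q with ha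
  have hB1 : 1 ≤ B := Nat.one_le_iff_ne_zero.2 (prod_ne_zero_iff.2 fun q hq => (hQp q hq).ne_zero)
  obtain ⟨q, hqN, hq, hiso⟩ := isolated (2 * B + a + 5) (N + a + (2 * B + 5) ^ 2)
  have hqQ : q ∉ Q := by
    intro h
    have : q ≤ a := single_le_sum (f := fun p : ℕ => p) (fun _ _ => Nat.zero_le _) h
    omega
  refine ⟨q, by omega, hq, hqQ, ?_⟩
  intro R hR hsum
  rw [prod_insert hqQ, ← hB]
  rw [sum_insert hqQ, ← ha] at hsum
  by_contra hlt
  push Not at hlt
  have hRne : R.Nonempty := by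
    rw [nonempty_iff_ne_empty]
    rintro rfl
    simp only [sum_empty] at hsum
    omega
  set r := R.max' hRne with hr
  have hrR : r ∈ R := R.max'_mem hRne
  set R' := R.erase r with hR'
  have hprod : r * ∏ p ∈ R', p = ∏ p ∈ R, p := mul_prod_erase R (fun p => p) hrR
  have hsum' : r + ∑ p ∈ R', p = ∑ p ∈ R, p := add_sum_erase R (fun p => p) hrR
  have hR'2 : ∀ p ∈ R', 2 ≤ p := fun p hp => (hR p (mem_of_mem_erase hp)).two_le
  have hle := sum_le_prod' R' hR'2
  set s' := ∑ p ∈ R', p with hs'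
  set P' := ∏ p ∈ R', p with hP'
  have hP'1 : 1 ≤ P' := Nat.one_le_iff_ne_zero.2
    (prod_ne_zero_iff.2 fun p hp => (hR p (mem_of_mem_erase hp)).ne_zero)
  rw [← hprod] at hlt
  rw [← hsum'] at hsum
  have hr2 : 2 ≤ r := (hR r hrR).two_le
  by_cases hbig : q ≤ 2 * r
  · -- `P' < 2 B`
    have h1 : P' < 2 * B := by
      by_contra h
      push Not at h
      have : q * B ≤ r * P' := by
        calc q * B ≤ 2 * r * B := Nat.mul_le_mul_right _ hbig
          _ = r * (2 * B) := by ring
          _ ≤ r * P' := Nat.mul_le_mul_left _ h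
      omega
    have h2 : r = q := hiso r (hR r hrR) (by omega) (by omega)
    have h3 : s' = a := by omega
    have h4 := hQ R' (fun p hp => hR p (mem_of_mem_erase hp)) h3
    rw [← hB, ← hP', ] at h4
    have : q * B ≤ r * P' := by rw [h2]; exact Nat.mul_le_mul_left _ h4
    omega
  · push Not at hbig
    -- `s' > q / 2`
    have h1 : r < 2 * B := by
      by_contra h
      push Not at h
      have h2 : q ≤ 2 * P' := by omega
      have : q * B ≤ r * P' := by
        calc q * B ≤ (2 * P') * B := Nat.mul_le_mul_right _ h2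
          _ = (2 * B) * P' := by ring
          _ ≤ r * P' := Nat.mul_le_mul_right _ h
      omega
    have h2 : R ⊆ range (2 * B) := by
      intro p hp
      rw [mem_range]
      exact lt_of_le_of_lt (R.le_max' p hp) h1
    have h3 : ∑ p ∈ R, p ≤ (2 * B) * (2 * B) := by
      calc ∑ p ∈ R, p ≤ ∑ p ∈ range (2 * B), p := sum_le_sum_of_subset h2
        _ ≤ ∑ p ∈ range (2 * B), 2 * B := sum_le_sum fun p hp => (mem_range.1 hp).le
        _ = (2 * B) * (2 * B) := by rw [sum_const, card_range, smul_eq_mul]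
    have h4 : (2 * B) * (2 * B) ≤ (2 * B + 5) ^ 2 := by nlinarith
    omega

/-- large sets of odd primes with the smallest product among the sets of primes with the same sum -/
theorem exists_best (C N : ℕ) : ∃ Q : Finset ℕ, Q.card = C + 1 ∧ (∀ q ∈ Q, q.Prime ∧ 2 < q) ∧ Best Q ∧
    N ≤ ∑ q ∈ Q, q := by
  classical
  have base : ∀ C : ℕ, ∃ Q : Finset ℕ, Q.card = C ∧ (∀ q ∈ Q, q.Prime ∧ 2 < q) ∧ Best Q := by
    intro C
    induction C with
    | zero =>
      refine ⟨∅, rfl, by simp, fun R hR h => ?_⟩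
      rw [prod_empty]
      exact Nat.one_le_iff_ne_zero.2 (prod_ne_zero_iff.2 fun p hp => (hR p hp).ne_zero)
    | succ C ih =>
      obtain ⟨Q, h1, h2, h3⟩ := ih
      obtain ⟨q, hq2, hq, hqQ, hbest⟩ := best_step Q (fun q hq => (h2 q hq).1) h3 2
      refine ⟨insert q Q, by rw [card_insert_of_notMem hqQ, h1], ?_, hbest⟩
      intro p hp
      rcases mem_insert.1 hp with rfl | hp
      · exact ⟨hq, hq2⟩
      · exact h2 p hp
  obtain ⟨Q, h1, h2, h3⟩ := base C
  obtain ⟨q, hq2, hq, hqQ, hbest⟩ := best_step Q (fun q hq => (h2 q hq).1) h3 (N + 2)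
  refine ⟨insert q Q, by rw [card_insert_of_notMem hqQ, h1], ?_, hbest, ?_⟩
  · intro p hp
    rcases mem_insert.1 hp with rfl | hp
    · exact ⟨hq, by omega⟩
    · exact h2 p hp
  · rw [sum_insert hqQ]
    omega

end Pool.Agent.V11320.PP
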